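import Pool.Agent.Q115.UDSystem

/-!
# Poonen's strict inequality for families generated by the blocks of designs

Let `V` be a finite set of `v` points and `G` a set of blocks (subsets of `V`). Let `F` be the family of
all unions of blocks, with or without the empty set. Some point lies in strictly more than half of
the members of `F`, in the following cases (none of these families is a power set).

1. `G` is a symmetric 2-design with blocks of size `k ≥ 2` (for instance a finite projective
   plane).
2. `G` is the set of the lines of a finite affine plane.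
3. More generally: `v ≥ 3`, there are at most `v` blocks, each of size at least `k`, two blocks
   have at most `μ` common points, every point lies in at least `r` blocks, two points lie in at
   most `l` common blocks, and `c l < r`, `v (k + c μ) ≤ 2 (c + 1) k ²` for some `c` with
   `1 ≤ c < k`.
-/

namespace Pool.Agent.Results.MP_75f39d_co.BlockDesigns

open Finset

/-- The family of all unions of subsets of `G` (the empty union included). -/
def unions {V : Type*} [DecidableEq V] (G : Finset (Finset V)) : Finset (Finset V) :=
  G.powerset.image fun T => T.sup id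

/-- the number of the blocks that contain `x` and `y` (the number of blocks through `x` if
`x = y`) -/
def codeg {V : Type*} [DecidableEq V] (G : Finset (Finset V)) (x y : V) : ℕ :=
  (G.filter fun B => x ∈ B ∧ y ∈ B).card

/-- A symmetric 2-design: as many blocks as points, all blocks of size `k`, every two
different points in exactly `l` blocks. -/
def IsSymmetricDesign {V : Type*} [Fintype V] [DecidableEq V] (G : Finset (Finset V))
    (k l : ℕ) : Prop :=
  G.card = Fintype.card V ∧ (∀ B ∈ G, B.card = k) ∧ ∀ x y : V, x ≠ y → codeg G x y = l

/-- An affine plane of order `k`: `k ²` points, lines of `k` points, every two different points on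
exactly one line. -/
def IsAffinePlane {V : Type*} [Fintype V] [DecidableEq V] (G : Finset (Finset V))
    (k : ℕ) : Prop :=
  Fintype.card V = k ^ 2 ∧ (∀ B ∈ G, B.card = k) ∧ ∀ x y : V, x ≠ y → codeg G x y = 1

/-- At least three points, at most `v` blocks of size at least `k`, two of which meet in at most
`μ` points; every point in at least `r` blocks, two points in at most `l` common blocks;
`c l < r`, `1 ≤ c < k` and `v (k + c μ) ≤ 2 (c + 1) k ²`. -/
def IsSystem {V : Type*} [Fintype V] [DecidableEq V] (G : Finset (Finset V))
    (k r l μ c : ℕ) : Prop :=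
  G.card ≤ Fintype.card V ∧ (∀ B ∈ G, k ≤ B.card) ∧
    (∀ B ∈ G, ∀ B' ∈ G, B ≠ B' → (B ∩ B').card ≤ μ) ∧ (∀ x : V, r ≤ codeg G x x) ∧
    (∀ x y : V, x ≠ y → codeg G x y ≤ l) ∧ c * l < r ∧
    Fintype.card V * (k + c * μ) ≤ 2 * (c + 1) * k ^ 2 ∧ 1 ≤ c ∧ c < k ∧ 3 ≤ Fintype.card V

/-- Poonen's strict inequality for the unions of blocks of symmetric designs, affine planes and the
systems above. -/
theorem result {V : Type*} [Fintype V] [DecidableEq V] [Nonempty V] (G F : Finset (Finset V))
    (hF : F = unions G ∨ F = (unions G).erase ∅)
    (hG : (∃ k l : ℕ, 2 ≤ k ∧ IsSymmetricDesign G k l) ∨ (∃ k : ℕ, 2 ≤ k ∧ IsAffinePlane G k) ∨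
      ∃ k r l μ c : ℕ, IsSystem G k r l μ c) :
    Fintype.card V * F.card < 2 * ∑ S ∈ F, S.card ∧
      ∃ x : V, F.card < 2 * (F.filter fun S => x ∈ S).card := by
  have key : Fintype.card V * (unions G).card < 2 * ∑ S ∈ unions G, S.card := by
    rcases hG with ⟨k, l, hk, h⟩ | ⟨k, hk, h⟩ | ⟨k, r, l, μ, c, h⟩
    · exact Pool.Agent.Q115.UD.symmetric_strict (G := G) h hk
    · exact Pool.Agent.Q115.UD.affine_strict (G := G) h hk
    · obtain ⟨h1, h2, h3, h4, h5, h6, h7, h8, h9, h10⟩ := h
      exact Pool.Agent.Q115.UD.system_strict G k r l μ c h1
        (fun x => by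
          have := h4 x
          simpa only [codeg, and_self] using this) h5 h2 h3 h6 h7 h8 h9 h10
  have key2 : Fintype.card V * F.card < 2 * ∑ S ∈ F, S.card := by
    rcases hF with rfl | rfl
    · exact key
    · refine lt_of_le_of_lt (Nat.mul_le_mul_left _ (card_le_card (erase_subset _ _)))
        (lt_of_lt_of_le key (Nat.mul_le_mul_left 2 ?_))
      by_cases he : ∅ ∈ unions G
      · rw [← add_sum_erase (unions G) _ he, card_empty, zero_add]
      · rw [erase_eq_of_notMem he]
  exact ⟨key2, Pool.Agent.Q115.UD.exists_strict key2⟩

end Pool.Agent.Results.MP_75f39d_co.BlockDesigns
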