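import Pool.Agent.Q123.UCO.Strict

/-!
# Poonen's strengthening of the union-closed sets conjecture for families closed under further
Boolean operations: a dichotomy

A `k`-ary Boolean operation `f` acts on the subsets of a ground set `V` coordinatewise. For every
set `Φ` of Boolean operations (of any arities) consider Poonen's conjecture restricted to the
separating union-closed families that are closed under every operation in `Φ`.

* If some operation in `Φ` is neither a disjunction of variables nor a constant, the restricted
  conjecture holds: such a family is a power set or has an element that lies in strictly more than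
  half of its members.
* If every operation in `Φ` is a disjunction of variables or a constant, the restricted conjecture
  is equivalent to Poonen's conjecture.
-/

namespace Pool.Agent.Results.MP_75f39d_co.BooleanOperations

open Q123.UCO Finset

/-- Poonen's conjecture. -/
def PoonenConjecture : Prop :=
  ∀ F : Finset (Finset ℕ), F.Nonempty → UnionClosed F → Separating F → F ≠ (F.sup id).powerset →
    HasVeryFrequent F

/-- Poonen's conjecture for the families of subsets of a finite ground set `V` that are also closed
under all the Boolean operations in `Φ`, applied coordinatewise over `V`. -/
def RestrictedConjecture (Φ : Set (Σ k : ℕ, Op k)) : Prop :=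
  ∀ (V : Finset ℕ) (F : Finset (Finset ℕ)), (∀ X ∈ F, X ⊆ V) → F.Nonempty → UnionClosed F →
    Separating F → F ≠ (F.sup id).powerset → (∀ f ∈ Φ, ClosedUnder V f.2 F) → HasVeryFrequent F

/-- **Dichotomy.** If all operations in `Φ` are disjunctions of variables (possibly of none, which
is the constant false) or constantly true, the restricted conjecture is equivalent to Poonen's
conjecture; otherwise the restricted conjecture holds. -/
theorem result (Φ : Set (Σ k : ℕ, Op k)) :
    ((∀ f ∈ Φ, IsDisjunction f.2 ∨ IsConstTrue f.2) →
      (RestrictedConjecture Φ ↔ PoonenConjecture)) ∧
    ((∃ f ∈ Φ, ¬ IsDisjunction f.2 ∧ ¬ IsConstTrue f.2) → RestrictedConjecture Φ) := by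
  classical
  constructor
  · intro hΦ
    constructor
    · intro hR F hFne hF hS hpow
      set V := F.sup id with hV
      have hVF : V ∈ F := by
        have h1 : V = F.biUnion id := by
          ext a
          rw [hV, mem_sup, mem_biUnion]
          rfl
        rw [h1]
        exact biUnion_mem hF F hFne id (fun X hX => hX)
      have hU' : UnionClosed (insert ∅ F) := by
        intro X hX Y hY
        rw [mem_insert] at hX hY ⊢
        rcases hX with rfl | hX
        · rw [empty_union]
          exact hY
        · rcases hY with rfl | hY
          · rw [union_empty]
            exact Or.inr hX
          · exact Or.inr (hF X hX Y hY)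
      have hsup : (insert ∅ F).sup id = V := by
        ext a
        rw [hV, mem_sup, mem_sup]
        constructor
        · rintro ⟨X, hX, ha⟩
          rcases mem_insert.1 hX with rfl | hX
          · simp at ha
          · exact ⟨X, hX, ha⟩
        · rintro ⟨X, hX, ha⟩
          exact ⟨X, mem_insert_of_mem hX, ha⟩
      have hsub : ∀ X ∈ insert ∅ F, X ⊆ V := by
        intro X hX
        have := sub_sup hX
        rwa [hsup] at this
      have hfil : ∀ x, (insert ∅ F).filter (fun X => x ∈ X) = F.filter (fun X => x ∈ X) := by
        intro x
        rw [filter_insert]
        simp
      have hcl : ∀ f ∈ Φ, ClosedUnder V f.2 (insert ∅ F) := by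
        intro f hf X hX
        rcases hΦ f hf with hd | ht
        · obtain ⟨s, hs⟩ := hd
          have e : app V f.2 X = s.biUnion X := by
            ext a
            simp only [app, mem_filter, hs, mem_biUnion, decide_eq_true_eq]
            constructor
            · exact fun h => h.2
            · intro h
              obtain ⟨i, hi, ha⟩ := h
              exact ⟨hsub _ (hX i) ha, i, hi, ha⟩
          rw [e]
          rcases s.eq_empty_or_nonempty with h | h
          · rw [h, biUnion_empty]
            exact mem_insert_self _ _
          · exact biUnion_mem hU' s h X (fun i _ => hX i)
        · have e : app V f.2 X = V := by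
            unfold app
            rw [filter_eq_self]
            intro a _
            exact ht _
          rw [e]
          exact mem_insert_of_mem hVF
      by_cases hp : insert ∅ F = V.powerset
      · -- the family is the power set without the empty set
        have h0 : ∅ ∉ F := by
          intro h
          rw [insert_eq_of_mem h] at hp
          exact hpow hp
        have hVne : V.Nonempty := by
          rw [nonempty_iff_ne_empty]
          intro h
          rw [h] at hVF
          exact h0 hVF
        obtain ⟨x, hx⟩ := hVne
        refine ⟨x, hx, ?_⟩
        have h1 := powerset_half hx
        rw [← hp, hfil, card_insert_of_notMem h0] at h1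
        omega
      · have hS' : Separating (insert ∅ F) := by
          intro x hx y hy hxy
          rw [hsup] at hx hy
          obtain ⟨T, hT, h1⟩ := hS x hx y hy hxy
          exact ⟨T, mem_insert_of_mem hT, h1⟩
        obtain ⟨x, hx, hlt⟩ := hR V (insert ∅ F) hsub ⟨∅, mem_insert_self _ _⟩ hU' hS'
          (by rw [hsup]; exact hp) hcl
        rw [hsup] at hx
        refine ⟨x, hx, ?_⟩
        have h1 : F.card ≤ (insert ∅ F).card := card_le_card (subset_insert _ _)
        rw [hfil] at hlt
        omega
    · intro hC V F _ hFne hF hS hpow _
      exact hC F hFne hF hS hpow
  · rintro ⟨f, hf, h1, h2⟩ V F hV hFne hF hS hpow hcl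
    exact very_frequent_of_closed hFne hF (closed_of_op hV hF (hcl f hf) h1 h2) hS hpow

end Pool.Agent.Results.MP_75f39d_co.BooleanOperations
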