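import Mathlib
import Pool.Agent.Q134.UC.Final

/-!
# Poonen's conjecture for families with many members in terms of the generators

A union-closed family generated by `J` nonempty sets has at most `2 ^ J` members (not counting the
empty set). We determine, up to a part with at most `1762 k ^ 2` generators, the separating families
with at least `2 ^ (J - k)` members in which no element lies in more than half of the members: they
are products with a power set.

For an outline of the proof see `Pool.Agent.Results.MP_9bc572_co.GeneratorDensity`.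
-/

namespace Pool.Agent.Results.MP_75f39d_co.GeneratorDensity

open Finset

/-- Let `A` be a finite separating union-closed family generated by a set `G ⊆ A` of `J` nonempty
sets, with at least `2 ^ (J - k)` members, in which no element lies in more than half of the members.
Then there is a finite set `P` such that `{x} ∈ G` for all `x ∈ P`, membership of a finite set `S` in
`A` only depends on `S \ P`, and at most `1762 k ^ 2` members of `G` are not of the form `{x}` with
`x ∈ P`. -/
theorem result (A G : Finset (Finset ℕ)) (hGA : G ⊆ A) (h0 : ∅ ∉ G)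
    (hA : ∀ X ∈ A, ∀ Y ∈ A, X ∪ Y ∈ A) (hgen : ∀ X ∈ A, ∃ S ⊆ G, X = S.sup id)
    (hsep : ∀ x ∈ A.sup id, ∀ y ∈ A.sup id, x ≠ y →
      ∃ S ∈ A, (x ∈ S ∧ y ∉ S) ∨ (y ∈ S ∧ x ∉ S))
    (k : ℝ) (hcard : (2:ℝ) ^ ((G.card : ℝ) - k) ≤ A.card)
    (hhalf : ∀ x, 2 * (A.filter fun S => x ∈ S).card ≤ A.card) :
    ∃ P : Finset ℕ, (∀ x ∈ P, {x} ∈ G) ∧ (∀ S : Finset ℕ, S ∈ A ↔ S \ P ∈ A) ∧
      ((G.filter fun g => ¬ ∃ x ∈ P, g = {x}).card : ℝ) ≤ 1762 * k ^ 2 := by
  have hgen' : ∀ X ∈ A, ∀ i ∈ X, ∃ g ∈ G, i ∈ g ∧ g ⊆ X := by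
    intro X hX i hi
    obtain ⟨S, hS, rfl⟩ := hgen X hX
    obtain ⟨g, hg, hig⟩ := mem_sup.1 hi
    exact ⟨g, hS hg, hig, le_sup (f := id) hg⟩
  obtain ⟨P, h1, h2, h3⟩ := Pool.Agent.Q134.UC.structure_thm ⟨hGA, hA, hgen'⟩ h0
    (by rw [← sup_eq_biUnion]; exact hsep) hhalf k hcard
  refine ⟨P, h1, h2, le_trans ?_ h3⟩
  have : (G.filter fun g => ¬ ∃ x ∈ P, g = {x}) ⊆ G \ P.image fun x => ({x} : Finset ℕ) := by
    intro g hg
    obtain ⟨hgG, hg⟩ := mem_filter.1 hg
    refine mem_sdiff.2 ⟨hgG, fun hcon => hg ?_⟩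
    obtain ⟨x, hx, rfl⟩ := mem_image.1 hcon
    exact ⟨x, hx, rfl⟩
  exact_mod_cast card_le_card this

end Pool.Agent.Results.MP_75f39d_co.GeneratorDensity
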