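import Pool.Agent.Q115.RBPoonen

/-!
# Poonen's strict inequality for random union-closed families of arbitrary density

A random bipartite graph with classes of sizes `m` and `n` and edge probability `p` is a random
`m × n` matrix `M` with independent entries; `Pr p` is the probability. `fam M` is the union-closed
family of all unions of rows (the empty union included), a family of sets of columns, `fam (tr M)`
the one generated by the columns. `Poonen M`: if `fam M` separates the points of its universe
`uni M` and is not the power set of `uni M`, then some element lies in strictly more than half of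
its members. The theorems are uniform in the edge probability `p`.
-/

namespace Pool.Agent.Results.MP_75f39d_co.RandomFamilies

open Pool.Agent.H161R2.UC Pool.Agent.Q115.RB

/-- (1) Random families of `m` sets on `n` points: Poonen's conjecture fails for the family of
their unions with probability at most `ε` if `mp` and `np` are at least `C(ε)` and
`log (mp) ≤ c np`.
(2) For `m ≤ R n`, `n ≤ R m` it fails for one of the two families of a random bipartite graph with
probability at most `ε`, for all edge probabilities, if `m` and `n` are large. -/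
theorem result :
    (∃ c : ℝ, 0 < c ∧ ∀ ε : ℝ, 0 < ε → ∃ C : ℝ, 1 ≤ C ∧ ∀ (m n : ℕ) (p : ℝ), 0 ≤ p → p ≤ 1 →
      C ≤ m * p → C ≤ n * p → Real.log (m * p) ≤ c * (n * p) →
      Pr p (fun M : Mat m n => ¬ Poonen M) ≤ ε) ∧
    (∀ ε : ℝ, 0 < ε → ∀ R : ℝ, 1 ≤ R → ∃ K : ℝ, ∀ (m n : ℕ) (p : ℝ), 0 ≤ p → p ≤ 1 →
      K ≤ m → K ≤ n → (n : ℝ) ≤ R * m → (m : ℝ) ≤ R * n →
      Pr p (fun M : Mat m n => ¬ (Poonen M ∧ Poonen (tr M))) ≤ ε) := by
  refine ⟨⟨Real.exp (-60), Real.exp_pos _, fun ε hε => ?_⟩, fun ε hε R hR => ?_⟩
  · obtain ⟨C, hC1, hC⟩ := one_side hε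
    refine ⟨C, hC1, fun m n p h0 h1 hmp hnp hl => ?_⟩
    have h60 : Real.exp 60 * Real.log (m * p) ≤ n * p := by
      calc Real.exp 60 * Real.log (m * p) ≤ Real.exp 60 * (Real.exp (-60) * (n * p)) :=
            mul_le_mul_of_nonneg_left hl (Real.exp_pos _).le
        _ = (Real.exp 60 * Real.exp (-60)) * (n * p) := by ring
        _ = n * p := by rw [← Real.exp_add]; simp
    refine le_trans (Pr_mono h0 h1 fun M hM h => hM (poonen_of_good ?_ h)) (hC m n p h0 h1 hmp hnp h60)
    refine Nat.pos_of_ne_zero fun h' => ?_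
    subst h'
    simp at hnp
    linarith
  · obtain ⟨K, hK⟩ := poonen_all (half_pos hε) hR
    refine ⟨K, fun m n p h0 h1 hm hn hnm hmn => ?_⟩
    have hA := hK m n p h0 h1 hm hn hnm hmn
    have hB := hK n m p h0 h1 hn hm hmn hnm
    rw [← Pr_tr] at hB
    calc Pr p (fun M : Mat m n => ¬ (Poonen M ∧ Poonen (tr M)))
        ≤ Pr p (fun M : Mat m n => ¬ Poonen M ∨ ¬ Poonen (tr M)) :=
          Pr_mono h0 h1 fun M hM => not_and_or.mp hM
      _ ≤ ε / 2 + ε / 2 := (Pr_or h0 h1 _ _).trans (add_le_add hA hB)
      _ = ε := by ring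

end Pool.Agent.Results.MP_75f39d_co.RandomFamilies
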